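import Pool.Agent.H84.SS.Targets
import Pool.Agent.H85.RTX.Birk

/-!
# Row MEP of the board ssp_modules (MP_352bb5_an): mean ergodic theorem over invariant sets
-/

set_option autoImplicit false

namespace Pool.Agent.H50.SS

open MeasureTheory Filter Topology Set ProbabilityTheory
open scoped ENNReal ComplexConjugate
open Pool.Agent.H84.SS
open Pool.Agent.H85.RT (avg GoodWeight Good)
open Pool.Agent.H94.RTB (LGood PD)

universe u v

section av

variable {X : Type u}

/-- averages along the orbit -/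
noncomputable def av (T : X → X) (F : X → ℂ) (M : ℕ) (x : X) : ℂ :=
  (∑ n ∈ Finset.range M, F (T^[n] x)) / (M : ℂ)

theorem av_bdd {T : X → X} {F : X → ℂ} {C : ℝ} (hb : ∀ x, ‖F x‖ ≤ C) (M : ℕ) (x : X) :
    ‖av T F M x‖ ≤ C := by
  have hC : 0 ≤ C := (norm_nonneg _).trans (hb x)
  unfold av
  rw [norm_div, Complex.norm_natCast]
  rcases Nat.eq_zero_or_pos M with rfl | hM
  · simpa using hC
  · rw [div_le_iff₀ (by exact_mod_cast hM)]
    refine (norm_sum_le _ _).trans ((Finset.sum_le_sum fun n _ => hb _).trans ?_)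
    simp [mul_comm]

theorem av_succ (T : X → X) (F : X → ℂ) (M : ℕ) (x : X) :
    av T F M (T x) = (∑ n ∈ Finset.Icc 1 M, F (T^[n] x)) / (M : ℂ) := by
  unfold av
  congr 1
  rw [Finset.range_eq_Ico, ← Finset.Ico_add_one_right_eq_Icc]
  rw [Finset.sum_Ico_eq_sum_range, Finset.sum_Ico_eq_sum_range]
  simp only [Nat.sub_zero, zero_add, Nat.add_sub_cancel]
  refine Finset.sum_congr rfl fun n _ => ?_
  rw [add_comm 1 n, Function.iterate_succ_apply]

theorem av_shift {T : X → X} {F : X → ℂ} {C : ℝ} (hb : ∀ x, ‖F x‖ ≤ C) (x : X) :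
    Tendsto (fun M => av T F M (T x) - av T F M x) atTop (𝓝 0) := by
  refine squeeze_zero_norm (a := fun N : ℕ => 2 * C / N) (fun M => ?_)
    (tendsto_const_div_atTop_nhds_zero_nat (2 * C))
  unfold av
  have e : ∑ n ∈ Finset.range M, F (T^[n] (T x)) =
      ∑ n ∈ Finset.range M, F (T^[n] x) + F (T^[M] x) - F x := by
    have e1 := Finset.sum_range_succ' (fun n => F (T^[n] x)) M
    have e2 := Finset.sum_range_succ (fun n => F (T^[n] x)) M
    simp only [Function.iterate_succ, Function.comp_apply, Function.iterate_zero, id] at e1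
    rw [e2] at e1
    linear_combination -e1
  rw [← sub_div, e, norm_div, Complex.norm_natCast]
  refine div_le_div_of_nonneg_right ?_ (Nat.cast_nonneg _)
  have e3 : ∑ n ∈ Finset.range M, F (T^[n] x) + F (T^[M] x) - F x -
      ∑ n ∈ Finset.range M, F (T^[n] x) = F (T^[M] x) - F x := by ring
  rw [e3]
  refine (norm_sub_le _ _).trans ?_
  linarith [hb x, hb (T^[M] x)]

/-- the points of convergence -/
def Zc (T : X → X) (F : X → ℂ) : Set X := {x | ∃ l, Tendsto (fun M => av T F M x) atTop (𝓝 l)}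

theorem Zc_inv {T : X → X} {F : X → ℂ} {C : ℝ} (hb : ∀ x, ‖F x‖ ≤ C) (x : X) :
    T x ∈ Zc T F ↔ x ∈ Zc T F := by
  have h := av_shift (T := T) hb x
  constructor
  · rintro ⟨l, hl⟩
    exact ⟨l - 0, (hl.sub h).congr fun M => by ring⟩
  · rintro ⟨l, hl⟩
    exact ⟨l + 0, (hl.add h).congr fun M => by ring⟩

/-- the limit of the averages -/
noncomputable def ph0 (T : X → X) (F : X → ℂ) (x : X) : ℂ :=
  limUnder atTop (fun M => (Zc T F).indicator (av T F M) x)

theorem ph0_tendsto (T : X → X) (F : X → ℂ) (x : X) :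
    Tendsto (fun M => (Zc T F).indicator (av T F M) x) atTop (𝓝 (ph0 T F x)) := by
  apply tendsto_nhds_limUnder
  by_cases hx : x ∈ Zc T F
  · obtain ⟨l, hl⟩ := hx
    refine ⟨l, hl.congr fun M => ?_⟩
    rw [Set.indicator_of_mem]
    exact ⟨l, hl⟩
  · refine ⟨0, tendsto_const_nhds.congr fun M => ?_⟩
    rw [Set.indicator_of_notMem hx]

theorem ph0_of_mem {T : X → X} {F : X → ℂ} {x : X} (hx : x ∈ Zc T F) :
    Tendsto (fun M => av T F M x) atTop (𝓝 (ph0 T F x)) :=
  (ph0_tendsto T F x).congr fun M => Set.indicator_of_mem hx _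

theorem ph0_inv {T : X → X} {F : X → ℂ} {C : ℝ} (hb : ∀ x, ‖F x‖ ≤ C) (x : X) :
    ph0 T F (T x) = ph0 T F x := by
  by_cases hx : x ∈ Zc T F
  · have h1 := ph0_of_mem ((Zc_inv hb x).2 hx)
    have h2 := ph0_of_mem hx
    have h3 := (h2.add (av_shift (T := T) hb x)).congr fun M => by
      show av T F M x + (av T F M (T x) - av T F M x) = av T F M (T x)
      ring
    rw [add_zero] at h3
    exact tendsto_nhds_unique h1 h3
  · have hx' : T x ∉ Zc T F := fun h => hx ((Zc_inv hb x).1 h)
    have h1 := ph0_tendsto T F (T x)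
    have h2 := ph0_tendsto T F x
    simp only [Set.indicator_of_notMem hx'] at h1
    simp only [Set.indicator_of_notMem hx] at h2
    exact tendsto_nhds_unique h1 h2

end av

section meas

variable {X : Type u} [MeasurableSpace X]

theorem av_meas {T : X → X} {F : X → ℂ} (hT : Measurable T) (hF : Measurable F) (M : ℕ) :
    Measurable (av T F M) :=
  (Finset.measurable_sum _ fun n _ => hF.comp (hT.iterate n)).div_const _

theorem Zc_meas {T : X → X} {F : X → ℂ} (hT : Measurable T) (hF : Measurable F) :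
    MeasurableSet (Zc T F) :=
  measurableSet_exists_tendsto fun M => av_meas hT hF M

theorem ph0_meas {T : X → X} {F : X → ℂ} (hT : Measurable T) (hF : Measurable F) :
    Measurable (ph0 T F) :=
  measurable_of_tendsto_metrizable (fun M => (av_meas hT hF M).indicator (Zc_meas hT hF))
    (tendsto_pi_nhds.2 fun x => ph0_tendsto T F x)

theorem ph0_meas_inv {T : X → X} {F : X → ℂ} {C : ℝ} (hT : Measurable T) (hF : Measurable F)
    (hb : ∀ x, ‖F x‖ ≤ C) : Measurable[MeasurableSpace.invariants T] (ph0 T F) := by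
  rw [MeasurableSpace.measurable_invariants_dom]
  refine ⟨ph0_meas hT hF, fun s _ => ?_⟩
  have : ph0 T F ∘ T = ph0 T F := funext fun x => ph0_inv hb x
  rw [this]

theorem ph0_bdd {T : X → X} {F : X → ℂ} {C : ℝ} (hb : ∀ x, ‖F x‖ ≤ C) (x : X) :
    ‖ph0 T F x‖ ≤ C := by
  have hC : 0 ≤ C := (norm_nonneg _).trans (hb x)
  refine le_of_tendsto (ph0_tendsto T F x).norm (Eventually.of_forall fun M => ?_)
  by_cases hx : x ∈ Zc T F
  · rw [Set.indicator_of_mem hx]
    exact av_bdd hb M x
  · rw [Set.indicator_of_notMem hx, norm_zero]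
    exact hC

variable {μ : Measure X} [IsProbabilityMeasure μ]

theorem ae_Zc {T : X → X} {F : X → ℂ} {C : ℝ} (hT : MeasurePreserving T μ μ)
    (hF : Measurable F) (hb : ∀ x, ‖F x‖ ≤ C) : ∀ᵐ x ∂μ, x ∈ Zc T F := by
  have h1 := Pool.Agent.H85.RTX.birkhoff hT (h := fun x => (F x).re) (Complex.measurable_re.comp hF)
    (C := C) fun x => (Complex.abs_re_le_norm _).trans (hb x)
  have h2 := Pool.Agent.H85.RTX.birkhoff hT (h := fun x => (F x).im) (Complex.measurable_im.comp hF)
    (C := C) fun x => (Complex.abs_im_le_norm _).trans (hb x)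
  filter_upwards [h1, h2] with x ⟨a, ha⟩ ⟨b, hb'⟩
  refine ⟨(a : ℂ) + (b : ℂ) * Complex.I, ?_⟩
  have ha' : Tendsto (fun N => ((Pool.Agent.H85.RTX.Av T (fun x => (F x).re) N x : ℝ) : ℂ)) atTop
      (𝓝 (a : ℂ)) := (Complex.continuous_ofReal.tendsto a).comp ha
  have hb'' : Tendsto (fun N => ((Pool.Agent.H85.RTX.Av T (fun x => (F x).im) N x : ℝ) : ℂ)) atTop
      (𝓝 (b : ℂ)) := (Complex.continuous_ofReal.tendsto b).comp hb'
  refine (ha'.add (hb''.mul_const Complex.I)).congr fun N => ?_
  unfold Pool.Agent.H85.RTX.Av av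
  push_cast
  rw [div_mul_eq_mul_div, ← add_div, Finset.sum_mul, ← Finset.sum_add_distrib]
  congr 1
  exact Finset.sum_congr rfl fun n _ => Complex.re_add_im _

theorem setInt_iter {T : X → X} (hT : MeasurePreserving T μ μ) {Q : Set X}
    (hQ : MeasurableSet[MeasurableSpace.invariants T] Q) {F : X → ℂ} (hF : Measurable F) (n : ℕ) :
    ∫ x in Q, F (T^[n] x) ∂μ = ∫ x in Q, F x ∂μ := by
  have hQ' : MeasurableSet Q := (MeasurableSpace.measurableSet_invariants.1 hQ).1
  have hm : Measurable (Q.indicator F) := hF.indicator hQ'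
  have h1 := integral_map (μ := μ) (φ := T^[n]) (hT.iterate n).measurable.aemeasurable
    (f := Q.indicator F) hm.aestronglyMeasurable
  rw [(hT.iterate n).map_eq] at h1
  rw [← integral_indicator hQ', ← integral_indicator hQ', h1]
  congr 1
  funext x
  have h2 : T^[n] x ∈ Q ↔ x ∈ Q := by
    have h3 := inv_iter hQ n
    constructor
    · intro h
      rw [← h3]
      exact h
    · intro h
      rw [← h3] at h
      exact h
  by_cases hx : x ∈ Q
  · rw [Set.indicator_of_mem hx, Set.indicator_of_mem (h2.2 hx)]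
  · rw [Set.indicator_of_notMem hx, Set.indicator_of_notMem (fun h => hx (h2.1 h))]

theorem int_bdd {F : X → ℂ} {C : ℝ} (hF : Measurable F) (hb : ∀ x, ‖F x‖ ≤ C) :
    Integrable F μ :=
  Integrable.of_bound hF.aestronglyMeasurable C (Eventually.of_forall hb)

/-- the limit of the averages is the conditional expectation -/
theorem ph0_eq {T : X → X} {F : X → ℂ} {C : ℝ} (hT : MeasurePreserving T μ μ)
    (hF : Measurable F) (hb : ∀ x, ‖F x‖ ≤ C) :
    ph0 T F =ᵐ[μ] μ[F | MeasurableSpace.invariants T] := by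
  have hle : MeasurableSpace.invariants T ≤ ‹MeasurableSpace X› :=
    fun s hs => (MeasurableSpace.measurableSet_invariants.1 hs).1
  have hφm := ph0_meas hT.measurable hF
  have hφi : Integrable (ph0 T F) μ := int_bdd hφm (ph0_bdd hb)
  refine ae_eq_condExp_of_forall_setIntegral_eq hle (int_bdd hF hb)
    (fun s _ _ => hφi.integrableOn) (fun Q hQ _ => ?_)
    (ph0_meas_inv hT.measurable hF hb).aestronglyMeasurable
  have h1 : Tendsto (fun M => ∫ x in Q, av T F M x ∂μ) atTop (𝓝 (∫ x in Q, ph0 T F x ∂μ)) := by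
    refine tendsto_integral_of_dominated_convergence (fun _ => C)
      (fun M => (av_meas hT.measurable hF M).aestronglyMeasurable) (integrable_const C)
      (fun M => Eventually.of_forall fun x => av_bdd hb M x) ?_
    exact ae_restrict_of_ae ((ae_Zc hT hF hb).mono fun x hx => ph0_of_mem hx)
  have h2 : ∀ M : ℕ, 1 ≤ M → ∫ x in Q, av T F M x ∂μ = ∫ x in Q, F x ∂μ := by
    intro M hM
    unfold av
    rw [integral_div, integral_finsetSum]
    · rw [Finset.sum_congr rfl fun n _ => setInt_iter hT hQ hF n]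
      rw [Finset.sum_const, Finset.card_range, nsmul_eq_mul]
      have : (M : ℂ) ≠ 0 := by exact_mod_cast (by omega : M ≠ 0)
      field_simp
    · intro n _
      exact (int_bdd (hF.comp (hT.iterate n).measurable) fun x => hb _).integrableOn
  have h3 : Tendsto (fun M => ∫ x in Q, av T F M x ∂μ) atTop (𝓝 (∫ x in Q, F x ∂μ)) :=
    tendsto_const_nhds.congr' ((eventually_ge_atTop 1).mono fun M hM => (h2 M hM).symm)
  exact tendsto_nhds_unique h1 h3

end meas

theorem pf_MEP : M_MEP.{u} := by
  intro X _ μ _ T F G C hT hF hG hbF hbG Q hQ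
  have hle : MeasurableSpace.invariants T ≤ ‹MeasurableSpace X› :=
    fun s hs => (MeasurableSpace.measurableSet_invariants.1 hs).1
  have hQ' : MeasurableSet Q := hle Q hQ
  have hφm := ph0_meas hT.measurable hF
  have hC : 0 ≤ C ∨ IsEmpty X := by
    rcases isEmpty_or_nonempty X with h | ⟨⟨x⟩⟩
    · exact Or.inr h
    · exact Or.inl ((norm_nonneg _).trans (hbF x))
  have hprodb : ∀ (H : X → ℂ), (∀ x, ‖H x‖ ≤ C) → ∀ x, ‖H x * G x‖ ≤ C * C := by
    intro H hH x
    rw [norm_mul]
    exact mul_le_mul (hH x) (hbG x) (norm_nonneg _) ((norm_nonneg _).trans (hH x))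
  -- the limit
  have h1 : Tendsto (fun M => ∫ x in Q, av T F M (T x) * G x ∂μ) atTop
      (𝓝 (∫ x in Q, ph0 T F x * G x ∂μ)) := by
    refine tendsto_integral_of_dominated_convergence (fun _ => C * C)
      (fun M => (((av_meas hT.measurable hF M).comp hT.measurable).mul hG).aestronglyMeasurable)
      (integrable_const _)
      (fun M => Eventually.of_forall fun x => hprodb (fun x => av T F M (T x))
        (fun x => av_bdd hbF M _) x) ?_
    refine ae_restrict_of_ae ((ae_Zc hT hF hbF).mono fun x hx => ?_)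
    have h2 := ph0_of_mem ((Zc_inv hbF x).2 hx)
    rw [ph0_inv hbF x] at h2
    exact h2.mul_const _
  have h2 : ∀ M : ℕ, ∫ x in Q, av T F M (T x) * G x ∂μ =
      (∑ n ∈ Finset.Icc 1 M, ∫ x in Q, F (T^[n] x) * G x ∂μ) / (M : ℂ) := by
    intro M
    rw [← integral_finsetSum]
    · rw [← integral_div]
      congr 1
      funext x
      rw [av_succ, div_mul_eq_mul_div, Finset.sum_mul]
    · intro n _
      exact (int_bdd ((hF.comp (hT.iterate n).measurable).mul hG)
        (hprodb (fun x => F (T^[n] x)) fun x => hbF _)).integrableOn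
  have hφG : Integrable (fun x => ph0 T F x * G x) μ :=
    int_bdd (hφm.mul hG) (hprodb _ (ph0_bdd hbF))
  have h3 : μ[fun x => ph0 T F x * G x | MeasurableSpace.invariants T] =ᵐ[μ]
      fun x => ph0 T F x * (μ[G | MeasurableSpace.invariants T]) x :=
    condExp_bilin_of_stronglyMeasurable_left (ContinuousLinearMap.mul ℝ ℂ)
      (ph0_meas_inv hT.measurable hF hbF).stronglyMeasurable hφG (int_bdd hG hbG)
  have h4 : ∫ x in Q, ph0 T F x * G x ∂μ =
      ∫ x in Q, (μ[F | MeasurableSpace.invariants T]) x *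
          (μ[G | MeasurableSpace.invariants T]) x ∂μ := by
    rw [← setIntegral_condExp hle hφG hQ]
    refine setIntegral_congr_ae hQ' ?_
    filter_upwards [h3, ph0_eq hT hF hbF] with x a b _
    rw [a, b]
  rw [← h4]
  exact h1.congr h2

end Pool.Agent.H50.SS
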