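import Pool.Agent.H84.SS.Targets

/-!
# Row SQB of the board ssp_modules (MP_352bb5_an): the integrals of the square averages
-/

set_option autoImplicit false

namespace Pool.Agent.H50.SS

open MeasureTheory Filter Topology Set ProbabilityTheory
open scoped ENNReal ComplexConjugate
open Pool.Agent.H84.SS
open Pool.Agent.H85.RT (avg GoodWeight Good)
open Pool.Agent.H94.RTB (LGood PD)

universe u v

theorem sqb_expand {X : Type u} (T : X → X) (f : X → ℂ) (w : ℕ → ℂ) (s : Finset (ℕ × ℕ))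
    (u : ℕ × ℕ → ℂ) (n : ℕ) (x : X) :
    ((‖∑ i ∈ s, u i * (w (n + i.1) * f (T^[n + i.2] x))‖ ^ 2 : ℝ) : ℂ) =
      ∑ i ∈ s, ∑ j ∈ s, u i * conj (u j) * (w (n + i.1) * conj (w (n + j.1))) *
        fp T f i.2 j.2 (T^[n] x) := by
  push_cast
  rw [← Complex.mul_conj', map_sum, Finset.sum_mul_sum]
  refine Finset.sum_congr rfl fun i _ => Finset.sum_congr rfl fun j _ => ?_
  unfold fp
  rw [← Function.iterate_add_apply, ← Function.iterate_add_apply, add_comm i.2 n, add_comm j.2 n,
    map_mul, map_mul]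
  ring

section meas

variable {X : Type u} [MeasurableSpace X] {μ : Measure X} [IsProbabilityMeasure μ]

theorem fp_meas {T : X → X} {f : X → ℂ} (hT : Measurable T) (hf : Measurable f) (b b' : ℕ) :
    Measurable (fp T f b b') :=
  (hf.comp (hT.iterate b)).mul (Complex.continuous_conj.measurable.comp (hf.comp (hT.iterate b')))

omit [MeasurableSpace X] in
theorem fp_bdd {T : X → X} {f : X → ℂ} (hb : ∀ x, ‖f x‖ ≤ 1) (b b' : ℕ) (x : X) :
    ‖fp T f b b' x‖ ≤ 1 := by
  unfold fp
  rw [norm_mul, RCLike.norm_conj]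
  exact mul_le_one₀ (hb _) (norm_nonneg _) (hb _)

theorem fp_int {T : X → X} {f : X → ℂ} (hT : Measurable T) (hf : Measurable f)
    (hb : ∀ x, ‖f x‖ ≤ 1) (b b' : ℕ) : Integrable (fp T f b b') μ :=
  Integrable.of_bound (fp_meas hT hf b b').aestronglyMeasurable 1
    (Eventually.of_forall fun x => fp_bdd hb b b' x)

end meas

theorem pf_SQB : M_SQB.{u} := by
  intro B w p hw X _ μ _ T f hT hf hb s u Q hQ
  have hle : MeasurableSpace.invariants T ≤ ‹MeasurableSpace X› :=
    fun s hs => (MeasurableSpace.measurableSet_invariants.1 hs).1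
  have hfi : ∀ b b', Integrable (fp T f b b') μ := fp_int T.measurable hf hb
  set I : ℕ × ℕ → ℕ × ℕ → ℂ := fun i j => ∫ x in Q, fp T f i.2 j.2 x ∂μ with hI
  have hIcf : ∀ i j : ℕ × ℕ, I i j = ∫ x in Q, cf μ T f i.2 j.2 x ∂μ := fun i j =>
    (setIntegral_condExp hle (hfi _ _) hQ).symm
  have hcfi : ∀ b b', Integrable (cf μ T f b b') μ := fun b b' => integrable_condExp
  -- the integrals
  have hiter : ∀ (b b' n : ℕ), Integrable (fun x => fp T f b b' (T^[n] x)) μ := fun b b' n =>
    Integrable.of_bound ((fp_meas T.measurable hf b b').comp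
      (T.measurable.iterate n)).aestronglyMeasurable 1
      (Eventually.of_forall fun x => fp_bdd hb b b' _)
  have hone : ∀ n : ℕ, ∫ x in Q, ((‖∑ i ∈ s, u i * (w (n + i.1) * f (T^[n + i.2] x))‖ ^ 2 : ℝ) : ℂ) ∂μ
      = ∑ i ∈ s, ∑ j ∈ s, u i * conj (u j) * (w (n + i.1) * conj (w (n + j.1))) * I i j := by
    intro n
    simp only [sqb_expand]
    rw [integral_finsetSum]
    · refine Finset.sum_congr rfl fun i _ => ?_
      rw [integral_finsetSum]
      · refine Finset.sum_congr rfl fun j _ => ?_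
        rw [integral_const_mul, setIntegral_iter hT hQ]
      · intro j _
        exact ((hiter _ _ n).const_mul _).integrableOn
    · intro i _
      exact (integrable_finsetSum _ fun j _ => (hiter _ _ n).const_mul _).integrableOn
  have hsqi : ∀ n : ℕ, Integrable
      (fun x => ‖∑ i ∈ s, u i * (w (n + i.1) * f (T^[n + i.2] x))‖ ^ 2) (μ.restrict Q) := by
    intro n
    have h1 : Integrable (fun x => ∑ i ∈ s, ∑ j ∈ s, u i * conj (u j) *
        (w (n + i.1) * conj (w (n + j.1))) * fp T f i.2 j.2 (T^[n] x)) (μ.restrict Q) :=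
      (integrable_finsetSum _ fun i _ => integrable_finsetSum _ fun j _ =>
        (hiter _ _ n).const_mul _).integrableOn
    have h2 := h1.re
    refine h2.congr (Eventually.of_forall fun x => ?_)
    simp only [← sqb_expand]
    exact RCLike.ofReal_re _
  have key : ∀ M : ℕ, ∫ x in Q, (∑ n ∈ Finset.Icc 1 M,
      ‖∑ i ∈ s, u i * (w (n + i.1) * f (T^[n + i.2] x))‖ ^ 2) / M ∂μ =
      (∑ i ∈ s, ∑ j ∈ s, u i * conj (u j) * ((∑ n ∈ Finset.Icc 1 M,
        w (n + i.1) * conj (w (n + j.1))) / (M : ℂ)) * I i j).re := by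
    intro M
    rw [integral_div, integral_finsetSum _ fun n _ => hsqi n]
    have h1 : ∀ n : ℕ, ∫ x in Q, ‖∑ i ∈ s, u i * (w (n + i.1) * f (T^[n + i.2] x))‖ ^ 2 ∂μ =
        (∑ i ∈ s, ∑ j ∈ s, u i * conj (u j) * (w (n + i.1) * conj (w (n + j.1))) * I i j).re := by
      intro n
      rw [← hone n, integral_complex_ofReal, Complex.ofReal_re]
    rw [Finset.sum_congr rfl fun n _ => h1 n, ← Complex.re_sum]
    have h2 : ∀ z : ℂ, z.re / (M : ℝ) = (z / (M : ℂ)).re := by
      intro z
      have := Complex.div_ofReal_re z (M : ℝ)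
      rw [← this]
      norm_num
    rw [h2]
    congr 1
    rw [Finset.sum_comm, Finset.sum_div]
    refine Finset.sum_congr rfl fun i _ => ?_
    rw [Finset.sum_comm, Finset.sum_div]
    refine Finset.sum_congr rfl fun j _ => ?_
    rw [← Finset.sum_mul, ← Finset.mul_sum]
    ring
  have hlim : Tendsto (fun M : ℕ => (∑ i ∈ s, ∑ j ∈ s, u i * conj (u j) *
      ((∑ n ∈ Finset.Icc 1 M, w (n + i.1) * conj (w (n + j.1))) / (M : ℂ)) * I i j).re) atTop
      (𝓝 (∑ i ∈ s, ∑ j ∈ s, u i * conj (u j) * p ((i.1 : ℤ) - j.1) * I i j).re) := by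
    refine (Complex.continuous_re.tendsto _).comp ?_
    refine tendsto_finsetSum _ fun i _ => tendsto_finsetSum _ fun j _ => ?_
    exact ((hw.cor i.1 j.1).const_mul _).mul_const _
  have hend : (∑ i ∈ s, ∑ j ∈ s, u i * conj (u j) * p ((i.1 : ℤ) - j.1) * I i j).re =
      ∫ x in Q, (∑ i ∈ s, ∑ j ∈ s, u i * conj (u j) * p ((i.1 : ℤ) - j.1) *
            cf μ T f i.2 j.2 x).re ∂μ := by
    have hint : ∀ i j : ℕ × ℕ, Integrable (fun x => u i * conj (u j) * p ((i.1 : ℤ) - j.1) *
            cf μ T f i.2 j.2 x) (μ.restrict Q) := fun i j =>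
      ((hcfi _ _).const_mul _).integrableOn
    have h3 : ∫ x in Q, (∑ i ∈ s, ∑ j ∈ s, u i * conj (u j) * p ((i.1 : ℤ) - j.1) *
            cf μ T f i.2 j.2 x) ∂μ =
        ∑ i ∈ s, ∑ j ∈ s, u i * conj (u j) * p ((i.1 : ℤ) - j.1) * I i j := by
      rw [integral_finsetSum _ fun i _ => integrable_finsetSum _ fun j _ => hint i j]
      refine Finset.sum_congr rfl fun i _ => ?_
      rw [integral_finsetSum _ fun j _ => hint i j]
      refine Finset.sum_congr rfl fun j _ => ?_
      rw [integral_const_mul, hIcf]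
    rw [← h3]
    have h4 : Integrable (fun x => ∑ i ∈ s, ∑ j ∈ s, u i * conj (u j) * p ((i.1 : ℤ) - j.1) *
            cf μ T f i.2 j.2 x) (μ.restrict Q) :=
      integrable_finsetSum _ fun i _ => integrable_finsetSum _ fun j _ => hint i j
    exact (integral_re h4).symm
  rw [← hend]
  exact hlim.congr fun M => (key M).symm

end Pool.Agent.H50.SS
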